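import Pool.Agent.H61.CA.C0
import Pool.Agent.H61.CA.Cnj

/-!
# CORE C1b: the slice data exist (the coefficients of `[p]` over `k⟦u⟧` as a hypothesis)
-/

open MvPowerSeries

namespace Pool.Agent.H27.CA

open Pool.Agent.H13.CA Pool.Agent.H61.CA

private theorem special_ι {k : Type*} [Field k] {s : ℕ}
    {F : FormalGroup (MvPowerSeries (Fin (s + 1)) k)}
    {L : Type*} [Field L] [Algebra k L] [Algebra (PowerSeries k) L]
    {π : MvPowerSeries (Fin (s + 1)) k →ₐ[k] PowerSeries k}
    {ι : MvPowerSeries (Fin (s + 1)) k →ₐ[k] MvPowerSeries (Fin s) L} (hι : IsBig k s π L ι) :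
    special (F.map (ι : MvPowerSeries (Fin (s + 1)) k →+* MvPowerSeries (Fin s) L)) =
      (F.map (π : MvPowerSeries (Fin (s + 1)) k →+* PowerSeries k)).map
        (algebraMap (PowerSeries k) L) := by
  unfold special
  rw [fmap_map, fmap_map]
  congr 1
  exact RingHom.ext fun f => hι.res f

/-- right cancellation -/
private theorem right_cancel {R : Type*} [CommRing R] {u a b : PowerSeries R}
    (hu0 : PowerSeries.constantCoeff u = 0) (hu : IsUnit (PowerSeries.coeff 1 u))
    (h : PowerSeries.subst u a = PowerSeries.subst u b) : a = b := by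
  obtain ⟨v, hv0, huv, -⟩ := H86.NF.exists_inv hu0 hu
  have huv' : (PowerSeries.subst v u : PowerSeries R) = PowerSeries.X := huv
  have key : ∀ x : PowerSeries R, PowerSeries.subst v (PowerSeries.subst u x) = x := by
    intro x
    rw [subst_subst' hu0 hv0, huv']
    exact PowerSeries.X_subst x
  rw [← key a, ← key b, h]

theorem exists_slice_of {k : Type*} [Field k] [IsAlgClosed k] (p : ℕ) [Fact p.Prime] [CharP k p]
    {s : ℕ} {F : FormalGroup (MvPowerSeries (Fin (s + 1)) k)}
    (hF : ∀ π : MvPowerSeries (Fin (s + 1)) k →ₐ[k] PowerSeries k, IsProj k s π →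
      (F.map (π : MvPowerSeries (Fin (s + 1)) k →+* PowerSeries k)).IsComm ∧
      (∀ i, i < p ^ (s + 1) → PowerSeries.coeff i
        (mulSer (F.map (π : MvPowerSeries (Fin (s + 1)) k →+* PowerSeries k)) p) = 0) ∧
      PowerSeries.coeff (p ^ (s + 1))
        (mulSer (F.map (π : MvPowerSeries (Fin (s + 1)) k →+* PowerSeries k)) p) = PowerSeries.X)
    (hFc : F.IsComm)
    {L : Type*} [Field L] [IsSepClosed L] [Algebra k L] [Algebra (PowerSeries k) L]
    [IsScalarTower k (PowerSeries k) L]
    (hinj : Function.Injective (algebraMap (PowerSeries k) L)) :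
    Nonempty (Slice k p s F L) := by
  obtain ⟨π, hπ⟩ := big_proj k s
  obtain ⟨ι, hι⟩ := big hπ L hinj
  obtain ⟨hc, h1, h2⟩ := hF π hπ
  have hsι := special_ι (F := F) hι
  set Fι := F.map (ι : MvPowerSeries (Fin (s + 1)) k →+* MvPowerSeries (Fin s) L) with hFι
  have hchL : CharP L p := charP_of_injective_algebraMap (algebraMap k L).injective p
  have hchB : CharP (MvPowerSeries (Fin s) L) p := H86.FG.charP_mv p
  have hac := H86.FG.ac_mI (L := L) (σ := Fin s)
  have hcι : Fι.IsComm := IsComm.map' hFc _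
  have hcs : (special Fι).IsComm := IsComm.map' hcι _
  have hh : HasHeight p (s + 1) (special Fι) := by
    rw [hsι]
    constructor
    · intro i hi
      rw [mulSer_map, PowerSeries.coeff_map, h1 i hi, map_zero]
    · rw [mulSer_map, PowerSeries.coeff_map, h2, isUnit_iff_ne_zero]
      exact (map_ne_zero_iff _ hinj).2 PowerSeries.X_ne_zero
  obtain ⟨Γ, β, hΓ, hΓp, hβ, hβu⟩ := laz_form (k := k) p (Nat.succ_pos s) hcs hh
  set B₀ : PowerSeries (MvPowerSeries (Fin s) L) :=
    PowerSeries.map (C (σ := Fin s) (R := L)) β with hB₀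
  have hred0 : red B₀ = β := by
    rw [hB₀, red, map_map']
    refine map_id' _ (fun x => ?_) β
    rw [RingHom.comp_apply, constantCoeff_C]
  have hB₀c : PowerSeries.constantCoeff B₀ = 0 := map_hs hβ.1 _
  have hB₀u : IsUnit (PowerSeries.coeff 1 B₀) := by
    rw [hB₀, PowerSeries.coeff_map]
    exact hβu.map _
  obtain ⟨G₁, hG₁, hG₁c⟩ := H13.CA.exists_conj Fι hB₀c hB₀u
  have hs1 : special G₁ = Γ.map (algebraMap k L) := by
    have h := hG₁.map (MvPowerSeries.constantCoeff (σ := Fin s) (R := L))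
    change IsHom (special Fι) (special G₁) (red B₀) at h
    rw [hred0] at h
    exact h.target_unique hβ hβu
  have hgc : PowerSeries.constantCoeff (mulSer G₁ p) = 0 := cc_mulSer _ _
  have hgS : H86.NF.Sm (H86.FG.mI (Fin s) L) (mulSer G₁ p) (PowerSeries.X ^ p ^ (s + 1)) := by
    rw [H86.FG.sm_iff, H86.FG.red_mulSer, hs1, mulSer_map, hΓp, red, map_pow, map_pow, map_X',
      map_X']
  obtain ⟨u, g', hu0, huS, hg'0, hg'S, hN, hcm⟩ :=
    H86.NF.nf_exists (p := p) (Nat.succ_ne_zero s) rfl (H86.FG.mI (Fin s) L) hgc hgS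
  have huu : IsUnit (PowerSeries.coeff 1 u) := H86.NF.isUnit_one_of_sm huS
  have hur : red u = PowerSeries.X := by
    rw [H86.FG.sm_iff] at huS
    rw [huS, red_X]
  obtain ⟨G, hG, hGc⟩ := H13.CA.exists_conj G₁ hu0 huu
  have hGp : mulSer G p = g' := by
    refine right_cancel hu0 huu ?_
    rw [← hG.mulSer p]
    exact hcm
  have hs2 : special G = special G₁ := by
    have h := hG.map (MvPowerSeries.constantCoeff (σ := Fin s) (R := L))
    change IsHom (special G₁) (special G) (red u) at h
    rw [hur] at h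
    exact (h.target_unique (IsHom.refl _) (by rw [PowerSeries.coeff_one_X]; exact isUnit_one))
  refine ⟨{
    π := π
    hπ := hπ
    ι := ι
    hι := hι
    Γ := Γ
    hΓ := hΓ
    hΓp := hΓp
    G := G
    B := PowerSeries.subst B₀ u
    hB := hG₁.comp hG
    hBu := ?_
    hG := hGc (hG₁c hcι)
    hsp := hs2.trans hs1
    hN := ?_ }⟩
  · rw [coeff_one_subst hB₀c hu0]
    exact hB₀u.mul huu
  · rw [hGp]
    exact hN

end Pool.Agent.H27.CA
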