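import Pool.Agent.H27.CA.C1b
import Pool.Agent.H61.CA.C1

/-!
# CORE C1b: the slice data exist
-/

open MvPowerSeries

namespace Pool.Agent.H27.CA

open Pool.Agent.H13.CA Pool.Agent.H61.CA

theorem exists_slice {k : Type*} [Field k] [IsAlgClosed k] (p : ℕ) [Fact p.Prime] [CharP k p]
    {s : ℕ} {F : FormalGroup (MvPowerSeries (Fin (s + 1)) k)} (hF : IsLT k p (s + 1) F)
    {L : Type*} [Field L] [IsSepClosed L] [Algebra k L] [Algebra (PowerSeries k) L]
    [IsScalarTower k (PowerSeries k) L]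
    (hinj : Function.Injective (algebraMap (PowerSeries k) L)) :
    Nonempty (Slice k p s F L) :=
  exists_slice_of p (fun _ hπ => ⟨(lt_res p hF hπ).1, (lt_res p hF hπ).2.1,
    (lt_res p hF hπ).2.2.1⟩) hF.comm hinj

end Pool.Agent.H27.CA
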